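import Pool.Agent.Q136.GA.OrderTwo

/-!
# MP_1a9025_nt: elements whose removal makes a `G`-adic basis minimal
-/

namespace Pool.Agent.Results.MP_1a9025_nt.MinimalAfterRemoval

open Finset Pool.Agent.Q136.GA

/-- `S(G, W)`: the elements `a` of `A` such that `A \ {a}` is a minimal asymptotic basis. -/
def S (h : ℕ) (g : ℕ → ℕ) (W : Fin h → Set ℕ) : Set ℕ :=
  {a | a ∈ base g W ∧ IsMinimalBasis h (base g W \ {a})}

/-- `W` contains the block `{s, ..., e-1}` with `g_e / g_s > h`. -/
def HasBlock (h : ℕ) (g : ℕ → ℕ) (W : Set ℕ) : Prop :=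
  ∃ s e, s ≤ e ∧ (∀ j, s ≤ j → j < e → j ∈ W) ∧ h * g s < g e

theorem result :
    -- every order: a cofinite part
    (∀ (h : ℕ) (g : ℕ → ℕ) (W : Fin h → Set ℕ), IsGadic g → IsPartition W →
      (∃ i, (W i)ᶜ.Finite) → S h g W = ∅) ∧
    -- every order: blocks of large ratio, no cofinite part
    (∀ (h : ℕ) (g : ℕ → ℕ) (W : Fin h → Set ℕ), IsGadic g → IsPartition W →
      (∀ i, (W i)ᶜ.Infinite) → (∀ c, HasBlock h g (W c)) → S h g W = {0}) ∧
    -- order two, complete answer; `W i` is the part which contains `0`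
    (∀ (g : ℕ → ℕ) (W : Fin 2 → Set ℕ), IsGadic g → IsPartition W → ∀ i, 0 ∈ W i →
      (((W 0).Finite ∨ (W 1).Finite) → S 2 g W = ∅) ∧
      ((W 0).Infinite → (W 1).Infinite →
        (¬ (∀ j ∈ W (1 - i), g (j + 1) = 2 * g j ∧ j + 1 ∉ W (1 - i)) → S 2 g W = {0}) ∧
        ((∀ j, j ∈ W i ↔ Even j) → (∀ j, g j = 2 ^ j) → S 2 g W = {0}) ∧
        ((∀ j, j ∈ W i ↔ Even j) → (∀ j, g (j + 1) = 3 * 2 ^ j) → S 2 g W = {0, 1}) ∧
        ((∀ j ∈ W (1 - i), g (j + 1) = 2 * g j ∧ j + 1 ∉ W (1 - i)) →
          ¬ ((∀ j, j ∈ W i ↔ Even j) ∧ ((∀ j, g j = 2 ^ j) ∨ ∀ j, g (j + 1) = 3 * 2 ^ j)) →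
          S 2 g W = ∅))) := by
  have part1 : ∀ (h : ℕ) (g : ℕ → ℕ) (W : Fin h → Set ℕ), IsGadic g → IsPartition W →
      (∃ i, (W i)ᶜ.Finite) → S h g W = ∅ := by
    rintro h g W hg hW ⟨i, hi⟩
    rw [Set.eq_empty_iff_forall_notMem]
    rintro a ⟨_, ha⟩
    exact cofinite_not_minimal hg hW i hi a ha
  refine ⟨part1, ?_, ?_⟩
  · intro h g W hg hW hinf hB
    have hno : ∀ a ∈ base g W, a ≠ 0 → ¬ IsAsymptoticBasis h (base g W \ {a}) := by
      intro a ha ha0 hb
      rcases (mem_base_iff hg).mp ha with h' | ⟨i, hi⟩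
      · exact ha0 h'
      · obtain ⟨φ, hφ, hstar⟩ := removable_necessary hg hW i hi (hinf i) hb
        refine own_part_obstruction hg hW i ha0 hi φ hφ ?_ hstar
        intro c hc
        by_contra hcon
        push Not at hcon
        obtain ⟨s, e, hse, hbl, hr⟩ := hB c
        exact block_obstruction hg hW i c hc hse hbl hr φ hcon a (hstar e)
    ext a
    rw [Set.mem_singleton_iff]
    constructor
    · rintro ⟨ha, hm, _⟩
      by_contra ha0
      exact hno a ha ha0 hm
    · rintro rfl
      refine ⟨(mem_base_iff hg).mpr (Or.inl rfl), minimal_iff.mpr ⟨zero_removable hg hW, ?_⟩⟩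
      rintro b ⟨hb, hb0⟩ hbas
      exact hno b hb hb0 (basis_mono (fun x hx => ⟨hx.1.1, hx.2⟩) hbas)
  · intro g W hg hW i h0
    have hcompl : ∀ i : Fin 2, (W i)ᶜ = W (1 - i) := by
      intro i
      ext j
      exact (other_iff hW i j).symm
    have hfin : ((W 0).Finite ∨ (W 1).Finite) → S 2 g W = ∅ := by
      rintro (h | h)
      · refine part1 2 g W hg hW ⟨1, ?_⟩
        rw [hcompl 1]
        exact h
      · refine part1 2 g W hg hW ⟨0, ?_⟩
        rw [hcompl 0]
        exact h
    refine ⟨hfin, fun hi0 hi1 => ?_⟩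
    have hinf : ∀ i, (W i).Infinite := by
      intro i
      fin_cases i
      · exact hi0
      · exact hi1
    have hUV := other_iff hW i
    have htwo : Two (W i) (W (1 - i)) := ⟨hUV, hinf i, hinf (1 - i)⟩
    have hBB := base_eq_BB hg W i
    have hrem : ∀ a ∈ base g W, a ≠ 0 → (IsAsymptoticBasis 2 (base g W \ {a}) ↔
        a ∈ Z g (W i) ∧ Free g (W i) (W (1 - i)) a) := fun a ha ha0 =>
      removable_two hg hW i h0 (hinf i) (hinf (1 - i)) ha0 ha
    have hmem0 : (0 : ℕ) ∈ base g W := (mem_base_iff hg).mpr (Or.inl rfl)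
    have hmemZ : ∀ b ∈ Z g (W i), b ∈ base g W := fun b hb =>
      (mem_base_iff hg).mpr (Or.inr ⟨i, hb⟩)
    have hone : ¬ IsAsymptoticBasis 2 ((base g W \ {0}) \ {1}) := by
      rw [hBB]
      exact htwo.one_not hg h0
    have h1Z : 1 ∈ Z g (W i) := by
      have := one_mul_mem hg h0
      rwa [hg.zero] at this
    -- membership of zero
    have hS0 : 0 ∈ S 2 g W ↔ ∀ b ∈ Z g (W i), b ≠ 0 → b ≠ 1 → ¬ Free g (W i) (W (1 - i)) b := by
      constructor
      · rintro ⟨_, hm⟩ b hb hb0 hb1 hf
        have h2 := (minimal_iff.mp hm).2 b ⟨hmemZ b hb, hb0⟩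
        apply h2
        rw [hBB]
        exact htwo.remove_zero hg hb hb0 hb1 hf
      · intro H
        refine ⟨hmem0, minimal_iff.mpr ⟨zero_removable hg hW, ?_⟩⟩
        rintro b ⟨hb, hb0⟩ hbas
        by_cases hb1 : b = 1
        · rw [hb1] at hbas
          exact hone hbas
        · have := (hrem b hb hb0).mp (basis_mono (fun x hx => ⟨hx.1.1, hx.2⟩) hbas)
          exact H b this.1 hb0 hb1 this.2
    -- membership of nonzero elements
    have hSa : ∀ a, a ≠ 0 → (a ∈ S 2 g W ↔ a = 1 ∧ Free g (W i) (W (1 - i)) 1 ∧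
        ∀ b ∈ Z g (W i), b ≠ 0 → b ≠ 1 → ¬ Free g (W i) (W (1 - i)) b) := by
      intro a ha0
      constructor
      · rintro ⟨haA, hm⟩
        obtain ⟨hm1, hm2⟩ := minimal_iff.mp hm
        obtain ⟨haZ, haF⟩ := (hrem a haA ha0).mp hm1
        have ha1 : a = 1 := by
          by_contra ha1
          have h2 := hm2 0 ⟨hmem0, fun e => ha0 e.symm⟩
          apply h2
          have h3 := htwo.remove_zero hg haZ ha0 ha1 haF
          rw [← hBB] at h3
          exact basis_mono (fun x hx => ⟨⟨hx.1.1, hx.2⟩, hx.1.2⟩) h3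
        subst ha1
        refine ⟨rfl, haF, fun b hb hb0 hb1 hf => ?_⟩
        apply hm2 b ⟨hmemZ b hb, hb1⟩
        rw [hBB]
        exact htwo.remove_both hg haZ hb ha0 hb0 haF hf
      · rintro ⟨rfl, hF, H⟩
        refine ⟨hmemZ 1 h1Z, minimal_iff.mpr ⟨(hrem 1 (hmemZ 1 h1Z) one_ne_zero).mpr ⟨h1Z, hF⟩, ?_⟩⟩
        rintro b ⟨hb, hb1⟩ hbas
        by_cases hb0 : b = 0
        · rw [hb0] at hbas
          exact hone (basis_mono (fun x hx => ⟨⟨hx.1.1, hx.2⟩, hx.1.2⟩) hbas)
        · have := (hrem b hb hb0).mp (basis_mono (fun x hx => ⟨hx.1.1, hx.2⟩) hbas)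
          exact H b this.1 hb0 hb1 this.2
    have hspec := special hg hUV h0
    -- in the first exceptional case, 1 is not removable
    refine ⟨?_, ?_, ?_, ?_⟩
    · intro hns
      have H := hspec.mpr (Or.inl hns)
      ext a
      rw [Set.mem_singleton_iff]
      constructor
      · intro ha
        by_contra ha0
        have h2 := (hSa a ha0).mp ha
        exact hns (free_sparse hUV h2.2.1)
      · rintro rfl
        exact hS0.mpr H
    · intro hev hg2
      have H := hspec.mpr (Or.inr ⟨hev, Or.inl hg2⟩)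
      ext a
      rw [Set.mem_singleton_iff]
      constructor
      · intro ha
        by_contra ha0
        have h2 := (hSa a ha0).mp ha
        have hV : 0 + 1 ∈ W (1 - i) := (hUV _).mpr fun h' => by
          have := (hev _).mp h'
          rw [Nat.even_add_one] at this
          exact this (by simp)
        obtain ⟨_, k, hk, _, hd⟩ := h2.2.1 (0 + 1) hV
        have : k = 0 := by omega
        subst this
        rw [hg2, hg2] at hd
        norm_num at hd
      · rintro rfl
        exact hS0.mpr H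
    · intro hev hg3
      have H := hspec.mpr (Or.inr ⟨hev, Or.inr hg3⟩)
      have hsparse : Sparse g (W (1 - i)) := by
        intro j hj
        have hodd : ¬ Even j := fun h' => (hUV j).mp hj ((hev j).mpr h')
        obtain ⟨j', rfl⟩ : ∃ j', j = j' + 1 := by
          rcases Nat.eq_zero_or_pos j with h | h
          · exact absurd (h ▸ (by simp : Even 0)) hodd
          · exact ⟨j - 1, by omega⟩
        refine ⟨?_, fun h' => ?_⟩
        · rw [hg3, hg3, pow_succ]
          ring
        · have := (hUV _).mp h'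
          apply this
          rw [hev, Nat.even_add_one]
          exact hodd
      have hF : Free g (W i) (W (1 - i)) 1 := by
        apply free_of_sparse hg hUV h0 hsparse
        intro j hj hjU
        refine ⟨j, le_rfl, ?_, ?_⟩
        · intro k hk1 hk2
          have : k = j := by omega
          rw [this]; exact hjU
        · have h1 := dig_g hg 0 j
          rw [hg.zero] at h1
          rw [h1]
          by_cases hj0 : j = 0
          · subst hj0
            simp only [if_true]
            unfold q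
            rw [hg.zero, hg3]
            norm_num
          · simp only [hj0, if_false]
            have := q_two hg j
            omega
      ext a
      rw [Set.mem_insert_iff, Set.mem_singleton_iff]
      constructor
      · intro ha
        by_cases ha0 : a = 0
        · exact Or.inl ha0
        · exact Or.inr ((hSa a ha0).mp ha).1
      · rintro (rfl | rfl)
        · exact hS0.mpr H
        · exact (hSa 1 one_ne_zero).mpr ⟨rfl, hF, H⟩
    · intro hs hnot
      have H : ¬ (∀ b ∈ Z g (W i), b ≠ 0 → b ≠ 1 → ¬ Free g (W i) (W (1 - i)) b) := by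
        rw [hspec]
        rintro (h | h)
        · exact h hs
        · exact hnot h
      rw [Set.eq_empty_iff_forall_notMem]
      intro a ha
      by_cases ha0 : a = 0
      · rw [ha0] at ha
        exact H (hS0.mp ha)
      · exact H ((hSa a ha0).mp ha).2.2

end Pool.Agent.Results.MP_1a9025_nt.MinimalAfterRemoval
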